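import Mathlib
import Pool.Agent.TH657.Pan.Transfer
import Pool.Agent.TH657.Pan.Homs
import Pool.Agent.TH657.Pan.DiamHom
import Pool.Agent.TH657.Pan.StairHom
import Pool.Agent.TH657.Pan.ModelA
import Pool.Agent.TH657.Pan.ModelB
import Pool.Agent.TH657.Pan.ModelC
import Pool.Agent.TH657.Pan.ModelD
import Pool.Agent.TH657.Pan.ModelDs
import Pool.Agent.TH657.Pan.ExHomA
import Pool.Agent.TH657.Pan.ExHomB
import Pool.Agent.TH657.Pan.ExHomC
import Pool.Agent.TH657.Pan.ExHomD

set_option autoImplicit false

/-!
# Orbit averages of antichain sizes in the root posets Delta(1): all types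

For every Cartan matrix of type `A`, `B`, `C`, `D`, `E`, `F`, `G` and every simple root, every orbit
of the reverse operator on the antichains of the root poset `Delta(1)` has average antichain size
`#Delta(1) / (d_1 + 1)`, where `d_1` is the largest height of a root of `Delta(1)`
(`OrbitAverages M k`).

The posets `Delta(1)` are products of two chains (types A, B, C), staircases (type C, last node;
type D, the two spin nodes), the product of a chain and of the weight poset of the vector
representation of `D_m` (type D, the other nodes) and finitely many posets with at most 64 elements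
(exceptional types).
-/

namespace Pool.Agent.Results.MP_f8f4ef_co.AllTypes

open Pool.Agent.TH657.Pan

theorem typeA (n : ℕ) (k : Fin n) : OrbitAverages (CartanMatrix.A n) k := by
  have hk := k.2
  refine orbitAverages_of_model (modelA n k) (d := n) ?_ (k.1, n - k.1 - 1) ?_ ?_ ?_
  · rintro ⟨x, y⟩ ⟨hx, hy⟩
    simp only at hx hy ⊢
    omega
  · constructor
    · simp
    · simp only
      omega
  · simp only
    omega
  · have h := rect_homomesy (k.1 + 1) (n - k.1) (by omega) (by omega)
    rwa [show k.1 + 1 + (n - k.1) = n + 1 by omega] at h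

theorem typeB (n : ℕ) (k : Fin n) : OrbitAverages (CartanMatrix.B n) k := by
  have hk := k.2
  refine orbitAverages_of_model (modelB n k) (d := 2 * n - k.1 - 1) ?_
    (k.1, 2 * (n - 1 - k.1)) ?_ ?_ ?_
  · rintro ⟨x, y⟩ ⟨hx, hy⟩
    simp only at hx hy ⊢
    omega
  · constructor
    · simp
    · simp
  · simp only
    omega
  · have h := rect_homomesy (k.1 + 1) (2 * (n - 1 - k.1) + 1) (by omega) (by omega)
    rwa [show k.1 + 1 + (2 * (n - 1 - k.1) + 1) = 2 * n - k.1 - 1 + 1 by omega] at h

theorem typeC (n : ℕ) (k : Fin n) : OrbitAverages (CartanMatrix.C n) k := by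
  have hk := k.2
  rcases Nat.lt_or_ge (k.1 + 1) n with h1 | h1
  · refine orbitAverages_of_model (modelC n k h1) (d := 2 * n - k.1 - 2) ?_
      (k.1, 2 * (n - 1 - k.1) - 1) ?_ ?_ ?_
    · rintro ⟨x, y⟩ ⟨hx, hy⟩
      simp only at hx hy ⊢
      omega
    · constructor
      · simp
      · simp only
        omega
    · simp only
      omega
    · have h := rect_homomesy (k.1 + 1) (2 * (n - 1 - k.1)) (by omega) (by omega)
      rwa [show k.1 + 1 + 2 * (n - 1 - k.1) = 2 * n - k.1 - 2 + 1 by omega] at h
  · have h2 : k.1 + 1 = n := by omega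
    refine orbitAverages_of_model (modelC_last n k h2) (d := 2 * n - 1) ?_ (n - 1, n - 1) ?_ ?_ ?_
    · rintro ⟨x, y⟩ ⟨hx, hy⟩
      simp only at hx hy ⊢
      omega
    · constructor
      · simp
      · simp only
        omega
    · simp only
      omega
    · have h := stair_homomesy n (by omega)
      rwa [show 2 * n = 2 * n - 1 + 1 by omega] at h

theorem typeD (n : ℕ) (k : Fin n) (hn : 4 ≤ n) : OrbitAverages (CartanMatrix.D n) k := by
  have hk := k.2
  rcases Nat.lt_or_ge (k.1 + 2) n with h1 | h1
  · refine orbitAverages_of_model (modelD n k hn h1) (d := 2 * n - k.1 - 3) ?_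
      (k.1, 2 * (n - 1 - k.1) - 3, 1) ?_ ?_ ?_
    · rintro ⟨x, y, z⟩ ⟨hx, hy⟩
      simp only at hx hy ⊢
      omega
    · refine ⟨Nat.lt_succ_self _, Or.inr ⟨rfl, ?_, ?_⟩⟩
      · change n - 1 - k.1 ≤ 2 * (n - 1 - k.1) - 3 + 2
        omega
      · change 2 * (n - 1 - k.1) - 3 + 3 ≤ 2 * (n - 1 - k.1)
        omega
    · simp only
      omega
    · have h := diam_homomesy (k.1 + 1) (n - 1 - k.1) (by omega) (by omega)
      rwa [show k.1 + 1 + (2 * (n - 1 - k.1) - 1) = 2 * n - k.1 - 3 + 1 by omega] at h
  · refine orbitAverages_of_model (modelD_spin n k hn h1) (d := 2 * (n - 1) - 1) ?_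
      (n - 2, n - 2) ?_ ?_ ?_
    · rintro ⟨x, y⟩ ⟨hx, hy⟩
      simp only at hx hy ⊢
      omega
    · constructor
      · simp
      · simp only
        omega
    · simp only
      omega
    · have h := stair_homomesy (n - 1) (by omega)
      rwa [show 2 * (n - 1) = 2 * (n - 1) - 1 + 1 by omega] at h

theorem typeE6 (k : Fin 6) : OrbitAverages CartanMatrix.E₆ k := by
  fin_cases k
  · exact orbitAverages_E6_0
  · exact orbitAverages_E6_1
  · exact orbitAverages_E6_2
  · exact orbitAverages_E6_3
  · exact orbitAverages_E6_4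
  · exact orbitAverages_E6_5

theorem typeE7 (k : Fin 7) : OrbitAverages CartanMatrix.E₇ k := by
  fin_cases k
  · exact orbitAverages_E7_0
  · exact orbitAverages_E7_1
  · exact orbitAverages_E7_2
  · exact orbitAverages_E7_3
  · exact orbitAverages_E7_4
  · exact orbitAverages_E7_5
  · exact orbitAverages_E7_6

theorem typeE8 (k : Fin 8) : OrbitAverages CartanMatrix.E₈ k := by
  fin_cases k
  · exact orbitAverages_E8_0
  · exact orbitAverages_E8_1
  · exact orbitAverages_E8_2
  · exact orbitAverages_E8_3
  · exact orbitAverages_E8_4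
  · exact orbitAverages_E8_5
  · exact orbitAverages_E8_6
  · exact orbitAverages_E8_7

theorem typeF4 (k : Fin 4) : OrbitAverages CartanMatrix.F₄ k := by
  fin_cases k
  · exact orbitAverages_F4_0
  · exact orbitAverages_F4_1
  · exact orbitAverages_F4_2
  · exact orbitAverages_F4_3

theorem typeG2 (k : Fin 2) : OrbitAverages CartanMatrix.G₂ k := by
  fin_cases k
  · exact orbitAverages_G2_0
  · exact orbitAverages_G2_1

/-- Panyushev's conjecture on orbit averages for Delta(1): for all types and all nodes, every orbit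
of the reverse operator on the antichains of `Delta(1)` has average size `#Delta(1) / (d_1 + 1)`. -/
theorem result :
    (∀ (n : ℕ) (k : Fin n), OrbitAverages (CartanMatrix.A n) k) ∧
    (∀ (n : ℕ) (k : Fin n), OrbitAverages (CartanMatrix.B n) k) ∧
    (∀ (n : ℕ) (k : Fin n), OrbitAverages (CartanMatrix.C n) k) ∧
    (∀ (n : ℕ) (k : Fin n), 4 ≤ n → OrbitAverages (CartanMatrix.D n) k) ∧
    (∀ k : Fin 6, OrbitAverages CartanMatrix.E₆ k) ∧
    (∀ k : Fin 7, OrbitAverages CartanMatrix.E₇ k) ∧
    (∀ k : Fin 8, OrbitAverages CartanMatrix.E₈ k) ∧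
    (∀ k : Fin 4, OrbitAverages CartanMatrix.F₄ k) ∧
    (∀ k : Fin 2, OrbitAverages CartanMatrix.G₂ k) :=
  ⟨typeA, typeB, typeC, typeD, typeE6, typeE7, typeE8, typeF4, typeG2⟩

end Pool.Agent.Results.MP_f8f4ef_co.AllTypes
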